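import Pool.Agent.Helper22.LIL.Defs

/-!
# Block TZ of the LIL project: moments of a sum of independent cosine polynomials
-/

open MeasureTheory Filter Set
open scoped Real Topology

namespace Pool.Agent.Helper22.LIL

open Pool.Agent.Helper22.GC Pool.Agent.Helper53.OM

noncomputable section

private lemma TZ_exp_le (x : ℝ) : Real.exp x ≤ x + Real.exp (x ^ 2) := by
  have h2 : x ^ 2 + 1 ≤ Real.exp (x ^ 2) := Real.add_one_le_exp _
  rcases le_or_gt (|x|) 1 with h | h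
  · have := Real.abs_exp_sub_one_sub_id_le h
    have := (abs_le.1 this).2
    nlinarith
  · rcases lt_abs.1 h with h | h
    · have : Real.exp x ≤ Real.exp (x ^ 2) := Real.exp_le_exp.2 (by nlinarith)
      linarith
    · have : Real.exp x ≤ 1 := Real.exp_le_one_iff.2 (by linarith)
      nlinarith

/-- the character of the cyclic group -/
private def chi (M : ℕ) (k : ℤ) (a : Fin M) : ℂ := Complex.exp (Complex.I * ((k : ℝ) * (2 * π * ((a : ℕ) : ℝ) / M) : ℝ))

private lemma TZ_char {M : ℕ} (hM : 0 < M) (k : ℤ) :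
    ∑ a : Fin M, chi M k a = ((if (M : ℤ) ∣ k then (M : ℝ) else 0 : ℝ) : ℂ) := by
  have hM0 : (M : ℂ) ≠ 0 := by exact_mod_cast hM.ne'
  set z : ℂ := Complex.exp (2 * π * Complex.I * (k / M)) with hz
  have h1 : ∀ a : Fin M, chi M k a = z ^ (a : ℕ) := by
    intro a
    rw [chi, hz, ← Complex.exp_nat_mul]
    congr 1
    push_cast
    field_simp
  rw [Finset.sum_congr rfl (fun a _ => h1 a), Fin.sum_univ_eq_sum_range (fun i => z ^ i)]
  split_ifs with hd
  · obtain ⟨l, hl⟩ := hd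
    have hz1 : z = 1 := by
      rw [hz, Complex.exp_eq_one_iff]
      refine ⟨l, ?_⟩
      rw [hl]
      push_cast
      field_simp
    rw [hz1]
    simp
  · have hz1 : z ≠ 1 := by
      intro h
      rw [hz, Complex.exp_eq_one_iff] at h
      obtain ⟨l, hl⟩ := h
      apply hd
      refine ⟨l, ?_⟩
      have h2 : (2 * π * Complex.I : ℂ) ≠ 0 := Complex.two_pi_I_ne_zero
      have h3 : (k / M : ℂ) = l := by
        have : (2 * π * Complex.I : ℂ) * (k / M) = (2 * π * Complex.I) * l := by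
          rw [hl]; ring
        exact mul_left_cancel₀ h2 this
      have h4 : (k : ℂ) = M * l := by
        field_simp at h3
        linear_combination h3
      exact_mod_cast h4
    have hzM : z ^ M = 1 := by
      rw [hz, ← Complex.exp_nat_mul, Complex.exp_eq_one_iff]
      refine ⟨k, ?_⟩
      field_simp
    rw [geom_sum_eq hz1, hzM]
    simp

private lemma TZ_cos (x : ℝ) :
    ((Real.cos x : ℝ) : ℂ) = (1 / 2) * ∑ s : Bool, Complex.exp (Complex.I * ((sg s : ℝ) * x : ℝ)) := by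
  rw [Complex.ofReal_cos, Complex.cos]
  simp only [Fintype.sum_bool, sg]
  push_cast
  simp
  ring_nf

/-- the angle at `q` of a point of the finite torus -/
private def ang (Q : Finset ℕ) (M : ℕ) (θ : ↥Q → Fin M) (q : ℕ) : ℝ :=
  if h : q ∈ Q then 2 * π * ((θ ⟨q, h⟩ : ℕ) : ℝ) / M else 0

/-- the coordinate sums -/
private def kq {n : ℕ} (t : Fin n → ℕ × ℕ) (s : Fin n → Bool) (q : ℕ) : ℤ :=
  ∑ i, (if (t i).1 = q then sg (s i) * ((t i).2 : ℤ) else 0)

private lemma TZ_angle {n : ℕ} {Q : Finset ℕ} {M : ℕ} (θ : ↥Q → Fin M) (t : Fin n → ℕ × ℕ)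
    (ht : ∀ i, (t i).1 ∈ Q) (s : Fin n → Bool) :
    ∑ i, (sg (s i) : ℝ) * ((t i).2 * ang Q M θ (t i).1) =
      ∑ q : ↥Q, (kq t s q : ℝ) * (2 * π * ((θ q : ℕ) : ℝ) / M) := by
  have h1 : ∀ i, (sg (s i) : ℝ) * ((t i).2 * ang Q M θ (t i).1) =
      ∑ q : ↥Q, (((if (t i).1 = (q : ℕ) then sg (s i) * ((t i).2 : ℤ) else 0 : ℤ)) : ℝ)
        * (2 * π * ((θ q : ℕ) : ℝ) / M) := by
    intro i
    rw [Finset.sum_eq_single (⟨(t i).1, ht i⟩ : ↥Q)]
    · rw [if_pos rfl, ang, dif_pos (ht i)]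
      push_cast
      ring
    · intro b _ hb
      rw [if_neg]
      · simp
      · intro h
        exact hb (Subtype.ext h.symm)
    · intro h
      exact absurd (Finset.mem_univ _) h
  rw [Finset.sum_congr rfl (fun i _ => h1 i), Finset.sum_comm]
  refine Finset.sum_congr rfl (fun q _ => ?_)
  rw [kq, Int.cast_sum, Finset.sum_mul]

/-- the number of points of the torus on which a relation survives -/
private def wt {n : ℕ} (Q : Finset ℕ) (M : ℕ) (t : Fin n → ℕ × ℕ) (s : Fin n → Bool) : ℝ :=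
  ∏ q : ↥Q, (if (M : ℤ) ∣ kq t s q then (M : ℝ) else 0)

private lemma TZ_sum_exp {n : ℕ} {Q : Finset ℕ} {M : ℕ} (hM : 0 < M) (t : Fin n → ℕ × ℕ)
    (ht : ∀ i, (t i).1 ∈ Q) (s : Fin n → Bool) :
    ∑ θ : ↥Q → Fin M, ∏ i, Complex.exp (Complex.I * ((sg (s i) : ℝ) * ((t i).2 * ang Q M θ (t i).1) : ℝ))
      = ((wt Q M t s : ℝ) : ℂ) := by
  have h1 : ∀ θ : ↥Q → Fin M,
      ∏ i, Complex.exp (Complex.I * ((sg (s i) : ℝ) * ((t i).2 * ang Q M θ (t i).1) : ℝ))
        = ∏ q : ↥Q, chi M (kq t s q) (θ q) := by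
    intro θ
    rw [← Complex.exp_sum, ← Finset.mul_sum, ← Complex.ofReal_sum, TZ_angle θ t ht s,
      Complex.ofReal_sum, Finset.mul_sum, Complex.exp_sum]
    rfl
  have h2 : ∏ q : ↥Q, (((if (M : ℤ) ∣ kq t s q then (M : ℝ) else 0 : ℝ)) : ℂ)
      = ∏ q : ↥Q, ∑ a : Fin M, chi M (kq t s q) a :=
    Finset.prod_congr rfl (fun q _ => (TZ_char hM (kq t s q)).symm)
  rw [Finset.sum_congr rfl (fun θ _ => h1 θ), wt, Complex.ofReal_prod, h2, Finset.prod_univ_sum,
    Fintype.piFinset_univ]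

/-- the random variable -/
private def GG (P : Finset (ℕ × ℕ)) (c : ℕ × ℕ → ℝ) (M : ℕ) (θ : ↥(P.image Prod.fst) → Fin M) : ℝ :=
  ∑ t ∈ P, c t * Real.cos (t.2 * ang (P.image Prod.fst) M θ t.1)

private lemma TZ_moment_eq (P : Finset (ℕ × ℕ)) (c : ℕ × ℕ → ℝ) {M : ℕ} (hM : 0 < M) (n : ℕ) :
    ∑ θ : ↥(P.image Prod.fst) → Fin M, GG P c M θ ^ n =
      ∑ t ∈ Fintype.piFinset (fun _ : Fin n => P), (∏ i, c (t i)) *
        ((1 / 2) ^ n * ∑ s : Fin n → Bool, wt (P.image Prod.fst) M t s) := by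
  apply Complex.ofReal_injective
  have h1 : ∀ θ : ↥(P.image Prod.fst) → Fin M, ((GG P c M θ ^ n : ℝ) : ℂ) =
      ∑ t ∈ Fintype.piFinset (fun _ : Fin n => P), ((∏ i, c (t i) : ℝ) : ℂ) * ((1 / 2) ^ n *
        ∑ s : Fin n → Bool, ∏ i, Complex.exp (Complex.I *
          ((sg (s i) : ℝ) * ((t i).2 * ang (P.image Prod.fst) M θ (t i).1) : ℝ))) := by
    intro θ
    have e1 : GG P c M θ ^ n = ∏ _i : Fin n, GG P c M θ := by simp
    rw [e1]
    simp only [GG]
    rw [Finset.prod_univ_sum, Complex.ofReal_sum]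
    refine Finset.sum_congr rfl (fun t _ => ?_)
    rw [Finset.prod_mul_distrib, Complex.ofReal_mul]
    congr 1
    rw [Complex.ofReal_prod, Finset.prod_congr rfl (fun i _ => TZ_cos _), Finset.prod_mul_distrib,
      Finset.prod_univ_sum, Fintype.piFinset_univ]
    simp
  rw [Complex.ofReal_sum, Finset.sum_congr rfl (fun θ _ => h1 θ), Finset.sum_comm, Complex.ofReal_sum]
  refine Finset.sum_congr rfl (fun t ht => ?_)
  have ht' : ∀ i, (t i).1 ∈ P.image Prod.fst := by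
    intro i
    exact Finset.mem_image_of_mem _ (Fintype.mem_piFinset.1 ht i)
  rw [← Finset.mul_sum, ← Finset.mul_sum, Finset.sum_comm]
  rw [Finset.sum_congr rfl (fun s _ => TZ_sum_exp hM t ht' s)]
  push_cast
  rfl

private lemma TZ_wt_nonneg {n : ℕ} (Q : Finset ℕ) (M : ℕ) (t : Fin n → ℕ × ℕ) (s : Fin n → Bool) :
    0 ≤ wt Q M t s := by
  refine Finset.prod_nonneg (fun q _ => ?_)
  split_ifs <;> positivity

private lemma TZ_rel_le {n : ℕ} (Q : Finset ℕ) (M : ℕ) (t : Fin n → ℕ × ℕ) :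
    (M : ℝ) ^ Q.card * (relCount t : ℝ) ≤ ∑ s : Fin n → Bool, wt Q M t s := by
  classical
  rw [relCount, Finset.cast_card, Finset.mul_sum]
  calc ∑ s ∈ Finset.univ.filter (fun s : Fin n → Bool => Rel t s), (M : ℝ) ^ Q.card * 1
      ≤ ∑ s ∈ Finset.univ.filter (fun s : Fin n → Bool => Rel t s), wt Q M t s := by
        refine Finset.sum_le_sum (fun s hs => ?_)
        have hr : Rel t s := (Finset.mem_filter.1 hs).2
        rw [wt, Finset.prod_congr rfl (fun q _ => by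
          rw [show kq t s q = 0 from hr q, if_pos (dvd_zero _)])]
        simp
    _ ≤ _ := Finset.sum_le_sum_of_subset_of_nonneg (Finset.filter_subset _ _)
        (fun s _ _ => TZ_wt_nonneg Q M t s)

/-- the part of the random variable that depends on the coordinate `q` -/
private def gq (P : Finset (ℕ × ℕ)) (c : ℕ × ℕ → ℝ) (M : ℕ) (q : ℕ) (a : Fin M) : ℝ :=
  ∑ t ∈ P.filter (fun t => t.1 = q), c t * Real.cos (t.2 * (2 * π * ((a : ℕ) : ℝ) / M))

private lemma TZ_GG_eq (P : Finset (ℕ × ℕ)) (c : ℕ × ℕ → ℝ) (M : ℕ)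
    (θ : ↥(P.image Prod.fst) → Fin M) :
    GG P c M θ = ∑ q : ↥(P.image Prod.fst), gq P c M q (θ q) := by
  rw [GG, ← Finset.sum_fiberwise_of_maps_to (g := Prod.fst) (t := P.image Prod.fst)
    (fun t ht => Finset.mem_image_of_mem _ ht), ← Finset.sum_coe_sort]
  refine Finset.sum_congr rfl (fun q _ => ?_)
  rw [gq]
  refine Finset.sum_congr rfl (fun t ht => ?_)
  have h1 : t.1 = q := (Finset.mem_filter.1 ht).2
  have h2 : ang (P.image Prod.fst) M θ t.1 = 2 * π * ((θ q : ℕ) : ℝ) / M := by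
    rw [h1, ang, dif_pos q.2]
  rw [h2]

private lemma TZ_gq_sum (P : Finset (ℕ × ℕ)) (hP : ∀ t ∈ P, t.2 ≠ 0) (c : ℕ × ℕ → ℝ) {M : ℕ}
    (hM : ∀ t ∈ P, t.2 < M) (hM0 : 0 < M) (q : ℕ) : ∑ a : Fin M, gq P c M q a = 0 := by
  simp only [gq]
  rw [Finset.sum_comm]
  refine Finset.sum_eq_zero (fun t ht => ?_)
  have htP : t ∈ P := (Finset.mem_filter.1 ht).1
  rw [← Finset.mul_sum]
  have h := TZ_char hM0 (t.2 : ℤ)
  rw [if_neg] at h
  · have h2 := congrArg Complex.re h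
    rw [Complex.re_sum] at h2
    have h3 : ∀ a : Fin M, (chi M (t.2 : ℤ) a).re = Real.cos (t.2 * (2 * π * ((a : ℕ) : ℝ) / M)) := by
      intro a
      rw [chi, mul_comm, Complex.exp_ofReal_mul_I_re]
      push_cast
      rfl
    rw [Finset.sum_congr rfl (fun a _ => h3 a)] at h2
    rw [h2]
    simp
  · intro hd
    have h1 : (M : ℤ) ≤ (t.2 : ℤ) := Int.le_of_dvd (by
      have := hP t htP
      omega) hd
    have := hM t htP
    omega

private lemma TZ_gq_abs (P : Finset (ℕ × ℕ)) (c : ℕ × ℕ → ℝ) (hc : ∀ t ∈ P, 0 ≤ c t) (M : ℕ)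
    (q : ℕ) (a : Fin M) : |gq P c M q a| ≤ ∑ t ∈ P.filter (fun t => t.1 = q), c t := by
  rw [gq]
  refine (Finset.abs_sum_le_sum_abs _ _).trans (Finset.sum_le_sum (fun t ht => ?_))
  have htP : t ∈ P := (Finset.mem_filter.1 ht).1
  rw [abs_mul, abs_of_nonneg (hc t htP)]
  exact mul_le_of_le_one_right (hc t htP) (Real.abs_cos_le_one _)

private lemma TZ_mgf (P : Finset (ℕ × ℕ)) (hP : ∀ t ∈ P, t.2 ≠ 0) (c : ℕ × ℕ → ℝ)
    (hc : ∀ t ∈ P, 0 ≤ c t) {M : ℕ} (hM : ∀ t ∈ P, t.2 < M) (hM0 : 0 < M) {ν μ : ℝ}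
    (hν : ν ^ 2 = μ ^ 2) :
    ∑ θ : ↥(P.image Prod.fst) → Fin M, Real.exp (ν * GG P c M θ) ≤
      (M : ℝ) ^ (P.image Prod.fst).card * Real.exp (μ ^ 2 * ∑ q ∈ P.image Prod.fst,
        (∑ t ∈ P.filter (fun t => t.1 = q), c t) ^ 2) := by
  have h1 : ∀ θ : ↥(P.image Prod.fst) → Fin M, Real.exp (ν * GG P c M θ)
      = ∏ q : ↥(P.image Prod.fst), Real.exp (ν * gq P c M q (θ q)) := by
    intro θ
    rw [TZ_GG_eq, Finset.mul_sum, Real.exp_sum]
  have h2 : ∑ θ : ↥(P.image Prod.fst) → Fin M, ∏ q : ↥(P.image Prod.fst), Real.exp (ν * gq P c M q (θ q))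
      = ∏ q : ↥(P.image Prod.fst), ∑ a : Fin M, Real.exp (ν * gq P c M q a) := by
    rw [Finset.prod_univ_sum]
    simp
  rw [Finset.sum_congr rfl (fun θ _ => h1 θ), h2]
  have h3 : ∀ q : ↥(P.image Prod.fst), ∑ a : Fin M, Real.exp (ν * gq P c M q a) ≤
      M * Real.exp (μ ^ 2 * (∑ t ∈ P.filter (fun t => t.1 = (q : ℕ)), c t) ^ 2) := by
    intro q
    calc ∑ a : Fin M, Real.exp (ν * gq P c M q a)
        ≤ ∑ a : Fin M, (ν * gq P c M q a +
          Real.exp (μ ^ 2 * (∑ t ∈ P.filter (fun t => t.1 = (q : ℕ)), c t) ^ 2)) := by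
          refine Finset.sum_le_sum (fun a _ => (TZ_exp_le _).trans ?_)
          gcongr
          rw [mul_pow, hν]
          have h4 := TZ_gq_abs P c hc M q a
          have h5 : gq P c M q a ^ 2 ≤ (∑ t ∈ P.filter (fun t => t.1 = (q : ℕ)), c t) ^ 2 := by
            rw [← sq_abs]
            exact pow_le_pow_left₀ (abs_nonneg _) h4 2
          exact mul_le_mul_of_nonneg_left h5 (sq_nonneg _)
      _ = _ := by
          rw [Finset.sum_add_distrib, ← Finset.mul_sum, TZ_gq_sum P hP c hM hM0]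
          simp
  calc ∏ q : ↥(P.image Prod.fst), ∑ a : Fin M, Real.exp (ν * gq P c M q a)
      ≤ ∏ q : ↥(P.image Prod.fst), (M * Real.exp (μ ^ 2 * (∑ t ∈ P.filter (fun t => t.1 = (q : ℕ)), c t) ^ 2)) :=
        Finset.prod_le_prod (fun q _ => Finset.sum_nonneg (fun a _ => (Real.exp_pos _).le))
          (fun q _ => h3 q)
    _ = _ := by
        rw [Finset.prod_mul_distrib, ← Real.exp_sum, ← Finset.mul_sum]
        congr 1
        · simp
        · rw [← Finset.sum_coe_sort (P.image Prod.fst)]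

/-- TZ: the moments of a sum of independent random variables (cosine polynomials of
independent uniform phases), as a sum over the tuples with all coordinate sums zero. -/
theorem torus_moment (P : Finset (ℕ × ℕ)) (hP : ∀ t ∈ P, t.2 ≠ 0) (c : ℕ × ℕ → ℝ)
    (hc : ∀ t ∈ P, 0 ≤ c t) (m : ℕ) {μ : ℝ} (hμ : 0 < μ) :
    ∑ t ∈ Fintype.piFinset (fun _ : Fin (2 * m) => P), (∏ i, c (t i)) * ((1 / 2) ^ (2 * m) * (relCount t : ℝ))
      ≤ (2 * m).factorial / μ ^ (2 * m) * Real.exp (μ ^ 2 * ∑ q ∈ P.image Prod.fst,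
        (∑ t ∈ P.filter (fun t => t.1 = q), c t) ^ 2) := by
  obtain ⟨M, hM⟩ : ∃ M : ℕ, M = P.sup Prod.snd + 1 := ⟨_, rfl⟩
  have hM0 : 0 < M := by omega
  have hMP : ∀ t ∈ P, t.2 < M := by
    intro t ht
    have := Finset.le_sup (f := Prod.snd) ht
    omega
  have hMpos : (0 : ℝ) < (M : ℝ) ^ (P.image Prod.fst).card := by positivity
  set E := Real.exp (μ ^ 2 * ∑ q ∈ P.image Prod.fst,
        (∑ t ∈ P.filter (fun t => t.1 = q), c t) ^ 2) with hE
  have h1 : (M : ℝ) ^ (P.image Prod.fst).card *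
      ∑ t ∈ Fintype.piFinset (fun _ : Fin (2 * m) => P), (∏ i, c (t i)) * ((1 / 2) ^ (2 * m) * (relCount t : ℝ))
      ≤ ∑ θ : ↥(P.image Prod.fst) → Fin M, GG P c M θ ^ (2 * m) := by
    rw [TZ_moment_eq P c hM0, Finset.mul_sum]
    refine Finset.sum_le_sum (fun t ht => ?_)
    have hct : 0 ≤ ∏ i, c (t i) :=
      Finset.prod_nonneg (fun i _ => hc _ (Fintype.mem_piFinset.1 ht i))
    have := TZ_rel_le (P.image Prod.fst) M t
    calc (M : ℝ) ^ (P.image Prod.fst).card * ((∏ i, c (t i)) * ((1 / 2) ^ (2 * m) * (relCount t : ℝ)))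
        = (∏ i, c (t i)) * ((1 / 2) ^ (2 * m) * ((M : ℝ) ^ (P.image Prod.fst).card * (relCount t : ℝ))) := by
          ring
      _ ≤ _ := by gcongr
  have h2 : ∀ θ : ↥(P.image Prod.fst) → Fin M, GG P c M θ ^ (2 * m) ≤
      (2 * m).factorial / μ ^ (2 * m) *
        ((Real.exp (μ * GG P c M θ) + Real.exp (-μ * GG P c M θ)) / 2) := by
    intro θ
    have hcosh : (μ * GG P c M θ) ^ (2 * m) / (2 * m).factorial ≤ Real.cosh (μ * GG P c M θ) := by
      have hs := Real.hasSum_cosh (μ * GG P c M θ)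
      exact le_hasSum hs m (fun j _ => by
        have : 0 ≤ (μ * GG P c M θ) ^ (2 * j) := (even_two_mul j).pow_nonneg _
        positivity)
    rw [Real.cosh_eq] at hcosh
    have hf : (0 : ℝ) < (2 * m).factorial := by positivity
    have hμm : 0 < μ ^ (2 * m) := by positivity
    rw [div_le_iff₀ hf, mul_pow] at hcosh
    rw [div_mul_eq_mul_div, le_div_iff₀ hμm]
    have e1 : -μ * GG P c M θ = -(μ * GG P c M θ) := by ring
    rw [e1]
    linarith
  have h3 : ∑ θ : ↥(P.image Prod.fst) → Fin M, GG P c M θ ^ (2 * m) ≤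
      (2 * m).factorial / μ ^ (2 * m) * ((M : ℝ) ^ (P.image Prod.fst).card * E) := by
    refine (Finset.sum_le_sum (fun θ _ => h2 θ)).trans ?_
    rw [← Finset.mul_sum, ← Finset.sum_div, Finset.sum_add_distrib]
    have e1 := TZ_mgf P hP c hc hMP hM0 (ν := μ) (μ := μ) rfl
    have e2 := TZ_mgf P hP c hc hMP hM0 (ν := -μ) (μ := μ) (by ring)
    rw [← hE] at e1 e2
    refine mul_le_mul_of_nonneg_left ?_ (by positivity)
    linarith
  have h4 := h1.trans h3
  rw [← mul_le_mul_iff_right₀ hMpos]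
  refine h4.trans (le_of_eq ?_)
  ring

end

end Pool.Agent.Helper22.LIL
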